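import Mathlib
import Pool.Prelude.Def_F_c31e40fa
import Pool.Agent.H712R2.MultiCoarse2

set_option autoImplicit false

namespace Pool.Agent.Results.MP_fcb70f_an.CoarseLocalConnectivity

/-- Degree-uniform coarse local connectivity of all Multibrot sets: any two points `x, y` of `M_n`
are joined by a continuum inside `M_n` of diameter at most `|x - y| + 3 (log n + 15) / (n - 1)`. -/
theorem result :
    ∀ n : ℕ, 2 ≤ n → ∀ x ∈ N62a1eb23.multibrotSet n, ∀ y ∈ N62a1eb23.multibrotSet n,
      ∃ S : Set ℂ, S ⊆ N62a1eb23.multibrotSet n ∧ IsCompact S ∧ IsConnected S ∧ x ∈ S ∧ y ∈ S ∧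
        Metric.diam S ≤ dist x y + 3 * ((Real.log n + 15) / ((n : ℝ) - 1)) :=
  fun _ hn _ hx _ hy => Pool.Agent.H712R2.coarse_lc hn hx hy

end Pool.Agent.Results.MP_fcb70f_an.CoarseLocalConnectivity
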