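import Mathlib
import Pool.Prelude.Def_F_c31e40fa
import Pool.Agent.H713R2.Main4

set_option autoImplicit false

open Filter Topology N62a1eb23

namespace Pool.Agent.Results.MP_fcb70f_an.LaurentDichotomy

open Pool.Agent.H713R2

/-- The Laurent coefficients of the exterior conformal map of the Multibrot set of degree `d ≥ 3`:
if the Laurent series converges absolutely on the unit circle, then the maximum of `m |b_m|` just
below the powers of `d` stays away from zero. -/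
theorem result (d : ℕ) (hd : 3 ≤ d) :
    (∃ (ψ : ℂ → ℂ) (b : ℕ → ℂ), IsExteriorMap (multibrotSet d) ψ ∧ HasLaurent ψ b) ∧
    ∀ (ψ : ℂ → ℂ) (b : ℕ → ℂ), IsExteriorMap (multibrotSet d) ψ → HasLaurent ψ b →
      Summable (fun m : ℕ => ‖b m‖) →
      ∃ c : ℝ, 0 < c ∧ ∀ ε : ℝ, 0 < ε → ∀ᶠ n : ℕ in atTop, ∃ m : ℕ,
        (1 - ε) * (d : ℝ) ^ n ≤ (m : ℝ) ∧ m < d ^ n ∧ c ≤ (m : ℝ) * ‖b m‖ := by
  have hd2 : 2 ≤ d := by omega
  obtain ⟨β, hβ⟩ := exists_beta hd2
  refine ⟨⟨_, _, exteriorMap_of_beta hβ, laurent_of_beta hβ⟩, ?_⟩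
  intro ψ b hψ hb hs
  have h1 := exterior_coeff hβ hψ hb
  simp only [h1] at hs ⊢
  exact main_dichotomy' hd2 hβ ((summable_nat_add_iff 1).mp hs)

end Pool.Agent.Results.MP_fcb70f_an.LaurentDichotomy
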