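import Mathlib
import Pool.Prelude.Def_F_c31e40fa
import Pool.Agent.H713R2.Main4

set_option autoImplicit false

open Filter Topology N62a1eb23

namespace Pool.Agent.Results.MP_fcb70f_an.LaurentLowerBound

open Pool.Agent.H713R2

/-- The Laurent coefficients of the exterior conformal map of the Multibrot set of degree `d ≥ 3`:
just below the powers of `d`, the maximum of `m |b_m| √(log m)` tends to infinity. -/
theorem result (d : ℕ) (hd : 3 ≤ d) :
    (∃ (ψ : ℂ → ℂ) (b : ℕ → ℂ), IsExteriorMap (multibrotSet d) ψ ∧ HasLaurent ψ b) ∧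
    ∀ (ψ : ℂ → ℂ) (b : ℕ → ℂ), IsExteriorMap (multibrotSet d) ψ → HasLaurent ψ b →
      ∀ ε K : ℝ, 0 < ε → ∀ᶠ n : ℕ in atTop, ∃ m : ℕ, (1 - ε) * (d : ℝ) ^ n ≤ (m : ℝ) ∧
        m < d ^ n ∧ K ≤ (m : ℝ) * ‖b m‖ * Real.sqrt (Real.log m) := by
  have hd2 : 2 ≤ d := by omega
  obtain ⟨β, hβ⟩ := exists_beta hd2
  refine ⟨⟨_, _, exteriorMap_of_beta hβ, laurent_of_beta hβ⟩, ?_⟩
  intro ψ b hψ hb ε K hε
  have h1 := exterior_coeff hβ hψ hb
  simp only [h1]
  exact main_lower' hd2 hβ hε K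

end Pool.Agent.Results.MP_fcb70f_an.LaurentLowerBound
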