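import Mathlib
import Pool.Prelude.Def_F_c31e40fa
import Pool.Agent.H713R2.AR.PR

set_option autoImplicit false

open Filter Topology MeasureTheory Set N62a1eb23

namespace Pool.Agent.Results.MP_fcb70f_an.ParameterRayArea

open Pool.Agent.H713R2 Pool.Agent.H713R2.AR

/-- The derivative of the exterior conformal map of a Multibrot set is controlled by two moments of
a sublevel set of the dynamical Green's function; a criterion for the landing of parameter rays. -/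
theorem result :
    ∀ d : ℕ, 3 ≤ d → (∃ ψ : ℂ → ℂ, IsExteriorMap (multibrotSet d) ψ) ∧
    ∀ ψ : ℂ → ℂ, IsExteriorMap (multibrotSet d) ψ → ∀ a b : ℕ, a + b + 2 = d →
      (∀ w : ℂ, 1 < ‖w‖ → (‖w‖ - 1) * ‖deriv ψ w‖ ≤ d / Real.pi *
        √((∫ z in {z : ℂ | green d (ψ w) z ≤ 2 / d * Real.log ‖w‖}, ‖z‖ ^ (2 * a)) *
          ∫ z in {z : ℂ | green d (ψ w) z ≤ 2 / d * Real.log ‖w‖}, ‖z‖ ^ (2 * b))) ∧
      ∀ ζ : ℂ, ‖ζ‖ = 1 →
        IntegrableOn (fun r : ℝ =>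
          √((∫ z in {z : ℂ | green d (ψ (r * ζ)) z ≤ 2 / d * Real.log r}, ‖z‖ ^ (2 * a)) *
            ∫ z in {z : ℂ | green d (ψ (r * ζ)) z ≤ 2 / d * Real.log r}, ‖z‖ ^ (2 * b)) /
              (r - 1)) (Ioo 1 2) →
        IntegrableOn (fun r : ℝ => ‖deriv ψ (r * ζ)‖) (Ioo 1 2) ∧
          ∃ c ∈ multibrotSet d, Tendsto (fun r : ℝ => ψ (r * ζ)) (𝓝[>] 1) (𝓝 c) := by
  intro d hd
  obtain ⟨β, hβ⟩ := exists_beta (d := d) (by omega)
  refine ⟨⟨_, exteriorMap_of_beta hβ⟩, ?_⟩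
  intro ψ hψ a b hab
  refine ⟨fun w hw => exterior_ineq hab hψ hw, ?_⟩
  intro ζ hζ hint
  refine landing (by omega) hψ hζ (B := fun r => d / Real.pi *
      √((∫ z in GLev d (ψ (r * ζ)) (2 / d * Real.log r), ‖z‖ ^ (2 * a)) *
        ∫ z in GLev d (ψ (r * ζ)) (2 / d * Real.log r), ‖z‖ ^ (2 * b))) ?_ ?_
  · intro r hr
    have hn : ‖(r : ℂ) * ζ‖ = r := by
      rw [norm_mul, hζ, mul_one, Complex.norm_real, Real.norm_eq_abs, abs_of_pos (by linarith)]
    have h1 := exterior_ineq hab hψ (w := (r : ℂ) * ζ) (by rw [hn]; exact hr)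
    rw [hn] at h1
    exact h1
  · have h1 := hint.const_mul (d / Real.pi)
    refine h1.congr (Filter.Eventually.of_forall fun r => ?_)
    simp only [GLev]
    ring

end Pool.Agent.Results.MP_fcb70f_an.ParameterRayArea
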